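import Pool.Agent.Helper13.R6.SheetA

set_option autoImplicit false

namespace Pool.Helper13.R6

namespace LATrow

theorem nv_le {d : Fin 4 → ℝ} {v : V4} {U : ℝ} : nv d v ≤ U ↔ ∀ i, d i * |(v i : ℝ)| ≤ U := by
  unfold nv
  rw [Finset.sup'_le_iff]
  simp

theorem le_nv (d : Fin 4 → ℝ) (v : V4) (i : Fin 4) : d i * |(v i : ℝ)| ≤ nv d v :=
  nv_le.1 le_rfl i

theorem hv_sub (x : A4) (v v' : V4) : hv x (v - v') = hv x v - hv x v' := by
  funext i
  fin_cases i <;> simp [hv, w3] <;> ring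

theorem hv_dvd {x : A4} {v : V4} {D : ℤ} (h : ∀ i j k, D ∣ w3 x v i j k) (i : Fin 4) :
    D ∣ hv x v i := by
  fin_cases i
  · simpa [hv] using h 1 2 3
  · simpa [hv] using h 0 2 3
  · simpa [hv] using h 0 1 3
  · simpa [hv] using h 0 1 2

/-- `hv x v / D` -/
def ph (D : ℕ) (x : A4) (v : V4) : V4 := fun i => hv x v i / (D : ℤ)

theorem ph_mul {x : A4} {v : V4} {D : ℕ} (h : ∀ i j k, (D : ℤ) ∣ w3 x v i j k) (i : Fin 4) :
    (D : ℤ) * ph D x v i = hv x v i :=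
  Int.mul_ediv_cancel' (hv_dvd h i)

theorem ph_inp (hA : ST_ALG) {x : A4} {v : V4} {D : ℕ} (hD : 0 < D) (hx : Plu x)
    (h : ∀ i j k, (D : ℤ) ∣ w3 x v i j k) : InP (stx x) (ph D x v) := by
  intro i j k
  have h1 := hA.2.2.1 x v hx i j k
  have h2 : (D : ℤ) * w3 (stx x) (ph D x v) i j k = w3 (stx x) (hv x v) i j k := by
    simp only [w3]
    rw [← ph_mul h i, ← ph_mul h j, ← ph_mul h k]
    ring
  rw [h1] at h2
  have hD' : (D : ℤ) ≠ 0 := by exact_mod_cast hD.ne'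
  rcases mul_eq_zero.1 h2 with h3 | h3
  · exact absurd h3 hD'
  · exact h3

theorem ph_norm (hA : ST_ALG) {d : Fin 4 → ℝ} {x : A4} {v : V4} {D : ℕ} {X R U : ℝ} (hD : 0 < D)
    (hd : ∀ i, 0 < d i) (hp : d 0 * d 1 * d 2 * d 3 = 1) (hx : Plu x) (hX : nx d x ≤ X)
    (hXR : X ≤ R * D) (hU : 0 ≤ U) (hv' : nv d v ≤ U)
    (h : ∀ i j k, (D : ℤ) ∣ w3 x v i j k) : nv (fun i => (d i)⁻¹) (ph D x v) ≤ 3 * R * U := by
  rw [nv_le]
  intro i
  have h1 := hA.2.2.2.2.2.2.2 d x v hd hp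
  have h2 := le_nv (fun i => (d i)⁻¹) (hv x v) i
  have hD' : (0 : ℝ) < (D : ℝ) := by exact_mod_cast hD
  have h3 : ((hv x v i : ℤ) : ℝ) = (D : ℝ) * ((ph D x v i : ℤ) : ℝ) := by
    rw [← ph_mul h i]
    push_cast
    ring
  rw [h3, abs_mul, abs_of_pos hD'] at h2
  have h0 : 0 ≤ nv d v := (mul_nonneg (hd 0).le (abs_nonneg _)).trans (le_nv d v 0)
  have h4 : 3 * nx d x * nv d v ≤ 3 * (R * D) * U := by
    have : nx d x ≤ R * D := hX.trans hXR
    have h5 : nx d x * nv d v ≤ R * D * nv d v := mul_le_mul_of_nonneg_right this h0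
    have h6 : 0 ≤ nx d x := by
      have h7 : d 0 * d 0 * |((x 0 0 : ℤ) : ℝ)| ≤ nx d x :=
        Finset.le_sup' (fun p : Fin 4 × Fin 4 => d p.1 * d p.2 * |(x p.1 p.2 : ℝ)|)
          (Finset.mem_univ ((0, 0) : Fin 4 × Fin 4))
      exact (mul_nonneg (mul_nonneg (hd 0).le (hd 0).le) (abs_nonneg _)).trans h7
    have h8 : R * D * nv d v ≤ R * D * U := mul_le_mul_of_nonneg_left hv' (h6.trans this)
    nlinarith
  have h5 : (D : ℝ) * ((d i)⁻¹ * |((ph D x v i : ℤ) : ℝ)|) ≤ (D : ℝ) * (3 * R * U) := by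
    calc (D : ℝ) * ((d i)⁻¹ * |((ph D x v i : ℤ) : ℝ)|)
        = (d i)⁻¹ * ((D : ℝ) * |((ph D x v i : ℤ) : ℝ)|) := by ring
      _ ≤ _ := h2
      _ ≤ _ := h1
      _ ≤ _ := h4
      _ = (D : ℝ) * (3 * R * U) := by ring
  exact le_of_mul_le_mul_left h5 hD'

theorem card_fib {S : Finset V4} {f : V4 → V4} {F I : ℝ} (hF0 : 0 ≤ F)
    (hF : ∀ y, ((S.filter fun v => f v = y).card : ℝ) ≤ F)
    (hI : ((S.image f).card : ℝ) ≤ I) : (S.card : ℝ) ≤ F * I := by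
  have h1 : S.card ≤ ⌊F⌋₊ * (S.image f).card :=
    Finset.card_le_mul_card_image S _ fun a _ => Nat.le_floor (hF a)
  have h2 : (S.card : ℝ) ≤ (⌊F⌋₊ : ℝ) * ((S.image f).card : ℝ) := by exact_mod_cast h1
  have h3 : (⌊F⌋₊ : ℝ) ≤ F := Nat.floor_le hF0
  exact h2.trans (mul_le_mul h3 hI (Nat.cast_nonneg _) hF0)

/-- The fibres of `ph` are in translates of `P_x`. -/
theorem fib_inp (hA : ST_ALG) {x : A4} {D : ℕ} (hx : Plu x) {v v' : V4}
    (h : ∀ i j k, (D : ℤ) ∣ w3 x v i j k) (h' : ∀ i j k, (D : ℤ) ∣ w3 x v' i j k)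
    (e : ph D x v = ph D x v') : InP x (v - v') := by
  rw [hA.2.2.2.1 x (v - v') hx, hv_sub]
  funext i
  have h1 := ph_mul h i
  have h2 := ph_mul h' i
  rw [e, h2] at h1
  simp [h1]

theorem inv_pos' {d : Fin 4 → ℝ} (hd : ∀ i, 0 < d i) : ∀ i, 0 < (fun i => (d i)⁻¹) i :=
  fun i => inv_pos.2 (hd i)

/-- The count with the constants of `CP`. -/
theorem count (hA : ST_ALG) (hC : ST_CP) {d : Fin 4 → ℝ} {X R : ℝ} {x : A4} {s t h g : V4} {D : ℕ}
    (hd : ∀ i, 0 < d i) (hp : d 0 * d 1 * d 2 * d 3 = 1) (hR1 : 1 ≤ R) (hx : NX d X x)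
    (hs : Red d x s t) (hg : Red (fun i => (d i)⁻¹) (stx x) h g) (hD : 0 < D) (hXR : X ≤ R * D)
    {U F : ℝ} (hU : 0 ≤ U) (hF0 : 0 ≤ F)
    (hF : (1 + 12 * U / nv d s) * (1 + 8 * U / nv d t) ≤ F)
    (S : Finset V4) (hS : ∀ v ∈ S, (∀ i j k, (D : ℤ) ∣ w3 x v i j k) ∧ nv d v ≤ U) :
    (S.card : ℝ) ≤ F * ((1 + 6 * (3 * R * U) / nv (fun i => (d i)⁻¹) h) *
      (1 + 4 * (3 * R * U) / nv (fun i => (d i)⁻¹) g)) := by
  have hU' : 0 ≤ 3 * R * U := by positivity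
  refine card_fib (f := ph D x) hF0 ?_ ?_
  · intro y
    refine le_trans ?_ hF
    refine (hC d x s t hd hx.prim hs U hU).2 _ ?_ ?_
    · intro v hv v' hv'
      rw [Finset.mem_filter] at hv hv'
      exact fib_inp hA hx.plu (hS v hv.1).1 (hS v' hv'.1).1 (hv.2.trans hv'.2.symm)
    · intro v hv
      rw [Finset.mem_filter] at hv
      exact (hS v hv.1).2
  · refine (hC _ (stx x) h g (inv_pos' hd) (hA.2.2.2.2.2.1 x hx.plu hx.prim) hg _ hU').1 _ ?_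
    intro y hy
    rw [Finset.mem_image] at hy
    obtain ⟨v, hv, rfl⟩ := hy
    exact ⟨ph_inp hA hD hx.plu (hS v hv).1,
      ph_norm hA hD hd hp hx.plu hx.hi hXR hU (hS v hv).2 (hS v hv).1⟩

/-- `1 / |t| ≤ 4 |s| / X` -/
theorem inv_t {σ τ n X : ℝ} (hτ : 0 < τ) (hX : 0 < X) (h1 : X / 2 < n)
    (h2 : n ≤ 2 * (σ * τ)) : 1 / τ ≤ 4 * σ / X := by
  rw [div_le_div_iff₀ hτ hX]
  nlinarith

theorem div_t {σ τ n X U : ℝ} (hτ : 0 < τ) (hX : 0 < X) (h1 : X / 2 < n)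
    (h2 : n ≤ 2 * (σ * τ)) (hU : 0 ≤ U) (c : ℝ) (hc : 0 ≤ c) :
    c * U / τ ≤ 4 * c * (U * σ / X) := by
  have h3 := inv_t hτ hX h1 h2
  calc c * U / τ = c * U * (1 / τ) := by ring
    _ ≤ c * U * (4 * σ / X) := mul_le_mul_of_nonneg_left h3 (mul_nonneg hc hU)
    _ = 4 * c * (U * σ / X) := by ring

end LATrow

open LATrow in
theorem st_LAT (hA : ST_ALG) (hR : ST_RIN) (hC : ST_CP) : ST_LAT := by
  refine ⟨428400, by norm_num, ?_⟩
  intro d X R x s t h g D hd hp hR1 hX hx hs hg hD hXR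
  have hR0 : 0 < R := by linarith
  obtain ⟨a1, a2, a3, a4, -, -⟩ := hR d x s t hd hx.prim hs
  obtain ⟨b1, b2, b3, b4, -, -⟩ := hR _ (stx x) h g (inv_pos' hd) (hA.2.2.2.2.2.1 x hx.plu hx.prim) hg
  rw [hA.2.2.2.2.2.2.1 d x hd hp hx.plu] at b3 b4
  have a5 := hx.lo
  obtain ⟨σ, eσ⟩ : ∃ σ, σ = nv d s := ⟨_, rfl⟩
  obtain ⟨τ, eτ⟩ : ∃ τ, τ = nv d t := ⟨_, rfl⟩
  obtain ⟨σ', eσ'⟩ : ∃ σ', σ' = nv (fun i => (d i)⁻¹) h := ⟨_, rfl⟩
  obtain ⟨τ', eτ'⟩ : ∃ τ', τ' = nv (fun i => (d i)⁻¹) g := ⟨_, rfl⟩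
  rw [← eσ, ← eτ] at a2 a3 a4
  rw [← eσ] at a1
  rw [← eσ', ← eτ'] at b2 b3 b4
  rw [← eσ'] at b1
  rw [← eσ, ← eσ']
  have hτ : 0 < τ := a1.trans_le a2
  have hτ' : 0 < τ' := b1.trans_le b2
  constructor
  · intro U hU S hS
    have k1 := count hA hC hd hp hR1 hx hs hg hD hXR hU (F := (1 + 12 * U / nv d s) * (1 + 8 * U / nv d t))
      (by rw [← eσ, ← eτ]; positivity) le_rfl S hS
    rw [← eσ, ← eτ, ← eσ', ← eτ'] at k1
    refine k1.trans ?_
    have u1 : 8 * U / τ ≤ 4 * 8 * (U * σ / X) := div_t hτ hX a5 a4 hU 8 (by norm_num)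
    have u2 : 4 * (3 * R * U) / τ' ≤ 4 * 4 * (3 * R * U * σ' / X) :=
      div_t hτ' hX a5 b4 (by positivity) 4 (by norm_num)
    have p1 : 0 ≤ U / σ := by positivity
    have p2 : 0 ≤ U * σ / X := by positivity
    have p3 : 0 ≤ R * U / σ' := by positivity
    have p4 : 0 ≤ R * U * σ' / X := by positivity
    have v1 : 1 + 12 * U / σ ≤ 12 * (1 + U / σ) := by
      have : 12 * U / σ = 12 * (U / σ) := by ring
      linarith
    have v2 : 1 + 8 * U / τ ≤ 32 * (1 + U * σ / X) := by linarith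
    have v3 : 1 + 6 * (3 * R * U) / σ' ≤ 18 * (1 + R * U / σ') := by
      have : 6 * (3 * R * U) / σ' = 18 * (R * U / σ') := by ring
      linarith
    have v4 : 1 + 4 * (3 * R * U) / τ' ≤ 48 * (1 + R * U * σ' / X) := by
      have : 3 * R * U * σ' / X = 3 * (R * U * σ' / X) := by ring
      rw [this] at u2
      linarith
    have q1 : 0 ≤ 1 + 8 * U / τ := by positivity
    have q2 : 0 ≤ 1 + 6 * (3 * R * U) / σ' := by positivity
    have q3 : 0 ≤ 1 + 4 * (3 * R * U) / τ' := by positivity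
    calc (1 + 12 * U / σ) * (1 + 8 * U / τ) *
          ((1 + 6 * (3 * R * U) / σ') * (1 + 4 * (3 * R * U) / τ'))
        ≤ (12 * (1 + U / σ)) * (32 * (1 + U * σ / X)) *
          ((18 * (1 + R * U / σ')) * (48 * (1 + R * U * σ' / X))) := by
          refine mul_le_mul (mul_le_mul v1 v2 q1 (by positivity))
            (mul_le_mul v3 v4 q3 (by positivity)) (by positivity) (by positivity)
      _ = 331776 * ((1 + U / σ) * (1 + U * σ / X) * (1 + R * U / σ') * (1 + R * U * σ' / X)) := by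
          ring
      _ ≤ 428400 * ((1 + U / σ) * (1 + U * σ / X) * (1 + R * U / σ') * (1 + R * U * σ' / X)) := by
          refine mul_le_mul_of_nonneg_right (by norm_num) (by positivity)
      _ = _ := by ring
  · intro ρ hρ0 hρ S hS
    have hne : S.Nonempty → σ' ≤ 3 * R * ρ := by
      rintro ⟨v, hv⟩
      obtain ⟨c1, c2, c3⟩ := hS v hv
      have e1 := ph_norm hA hD hd hp hx.plu hx.hi hXR hρ0 c3 c1
      have e2 := ph_inp hA hD hx.plu c1
      have e3 : ph D x v ≠ 0 := by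
        intro h0
        refine c2 ((hA.2.2.2.1 x v hx.plu).2 ?_)
        funext i
        rw [← ph_mul c1 i, h0]
        simp
      have e4 := hg.mn _ e2 e3
      rw [← eσ'] at e4
      exact e4.trans e1
    refine ⟨hne, ?_⟩
    rcases S.eq_empty_or_nonempty with rfl | hS0
    · have : 0 ≤ 428400 * (R * ρ / σ') * (1 + R * ρ * σ' / X) := by positivity
      simpa using this
    have w0 := hne hS0
    have k1 := count hA hC hd hp hR1 hx hs hg hD hXR hρ0 (F := 425) (by norm_num) ?_ S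
      (fun v hv => ⟨(hS v hv).1, (hS v hv).2.2⟩)
    swap
    · rw [← eσ, ← eτ]
      have v1 : 1 + 12 * ρ / σ ≤ 25 := by
        have : 12 * ρ / σ ≤ 24 := by
          rw [div_le_iff₀ a1]
          linarith
        linarith
      have v2 : 1 + 8 * ρ / τ ≤ 17 := by
        have : 8 * ρ / τ ≤ 16 := by
          rw [div_le_iff₀ hτ]
          linarith
        linarith
      calc (1 + 12 * ρ / σ) * (1 + 8 * ρ / τ) ≤ 25 * 17 :=
            mul_le_mul v1 v2 (by positivity) (by norm_num)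
        _ = 425 := by norm_num
    rw [← eσ', ← eτ'] at k1
    refine k1.trans ?_
    have u2 : 4 * (3 * R * ρ) / τ' ≤ 4 * 4 * (3 * R * ρ * σ' / X) :=
      div_t hτ' hX a5 b4 (by positivity) 4 (by norm_num)
    have p3 : 0 ≤ R * ρ / σ' := by positivity
    have p4 : 0 ≤ R * ρ * σ' / X := by positivity
    have v3 : 1 + 6 * (3 * R * ρ) / σ' ≤ 21 * (R * ρ / σ') := by
      have e1 : 6 * (3 * R * ρ) / σ' = 18 * (R * ρ / σ') := by ring
      have e2 : 1 ≤ 3 * (R * ρ / σ') := by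
        have : 3 * (R * ρ / σ') = (3 * R * ρ) / σ' := by ring
        rw [this, le_div_iff₀ b1]
        linarith
      linarith
    have v4 : 1 + 4 * (3 * R * ρ) / τ' ≤ 48 * (1 + R * ρ * σ' / X) := by
      have : 3 * R * ρ * σ' / X = 3 * (R * ρ * σ' / X) := by ring
      rw [this] at u2
      linarith
    calc 425 * ((1 + 6 * (3 * R * ρ) / σ') * (1 + 4 * (3 * R * ρ) / τ'))
        ≤ 425 * ((21 * (R * ρ / σ')) * (48 * (1 + R * ρ * σ' / X))) := by
          refine mul_le_mul_of_nonneg_left ?_ (by norm_num)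
          exact mul_le_mul v3 v4 (by positivity) (by positivity)
      _ = _ := by ring

end Pool.Helper13.R6
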