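import Pool.Agent.Helper13.R6.SheetB

set_option autoImplicit false

namespace Pool.Helper13.R6

namespace MLFrow

open Classical in
theorem natcard_pairs {α : Type} (r : α → α → Prop) (A B : Finset α) :
    Nat.card {p : α × α // p.1 ∈ A ∧ p.2 ∈ B ∧ r p.1 p.2} =
      ∑ x ∈ A, ∑ y ∈ B, (if r x y then 1 else 0) := by
  have h : ∀ p : α × α, p ∈ (A ×ˢ B).filter (fun p => r p.1 p.2) ↔
      p.1 ∈ A ∧ p.2 ∈ B ∧ r p.1 p.2 := by
    intro p
    simp [and_assoc]
  rw [Nat.subtype_card _ h, Finset.card_filter, Finset.sum_product]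

open Classical in
theorem two_mul_le (hE : ST_CSE) {α : Type} (r : α → α → Prop) (hr : Equivalence r)
    (A B : Finset α) :
    2 * ∑ x ∈ A, ∑ y ∈ B, (if r x y then 1 else 0) ≤
      (∑ x ∈ A, ∑ y ∈ A, (if r x y then 1 else 0)) +
        ∑ x ∈ B, ∑ y ∈ B, (if r x y then 1 else 0) := by
  have h := hE α r hr A B
  rw [natcard_pairs, natcard_pairs, natcard_pairs] at h
  generalize (∑ x ∈ A, ∑ y ∈ B, (if r x y then 1 else 0)) = c at h ⊢
  generalize (∑ x ∈ A, ∑ y ∈ A, (if r x y then 1 else 0)) = a at h ⊢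
  generalize (∑ x ∈ B, ∑ y ∈ B, (if r x y then 1 else 0)) = b at h ⊢
  by_contra h1
  push Not at h1
  zify at h h1
  have ha : (0 : ℤ) ≤ a := Int.natCast_nonneg a
  have hb : (0 : ℤ) ≤ b := Int.natCast_nonneg b
  nlinarith [sq_nonneg ((a : ℤ) - b)]

/-- `Rel D` is an equivalence relation. -/
theorem rel_equiv (D : ℕ) : Equivalence (Rel D) := by
  refine ⟨fun x => ⟨1, isCoprime_one_left, fun i j => by simp⟩, ?_, ?_⟩
  · rintro x y ⟨κ, ⟨a, b, hab⟩, h⟩
    refine ⟨a, ⟨κ, b, by linear_combination hab⟩, fun i j => ?_⟩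
    obtain ⟨m, hm⟩ := h i j
    refine ⟨b * x i j - a * m, ?_⟩
    linear_combination (-(x i j)) * hab - a * hm
  · rintro x y z ⟨κ, h1, h2⟩ ⟨κ', h1', h2'⟩
    refine ⟨κ' * κ, h1'.mul_left h1, fun i j => ?_⟩
    obtain ⟨m, hm⟩ := h2 i j
    obtain ⟨m', hm'⟩ := h2' i j
    refine ⟨m' + κ' * m, ?_⟩
    linear_combination hm' + κ' * hm

open Classical in
/-- The sum of the lemma. -/
noncomputable def MM (DD : A4 → Finset ℕ) (A B : Finset A4) : ℕ :=
  ∑ x ∈ A, ∑ x' ∈ B, ((DD x ∩ DD x').filter (fun D => Rel D x x')).card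

open Classical in
theorem mm_eq (DD : A4 → Finset ℕ) (A B : Finset A4) (U : Finset ℕ) (hU : ∀ x ∈ A, DD x ⊆ U) :
    MM DD A B = ∑ D ∈ U, ∑ x ∈ A.filter (fun x => D ∈ DD x), ∑ y ∈ B.filter (fun x => D ∈ DD x),
      (if Rel D x y then 1 else 0) := by
  unfold MM
  have h1 : ∀ x ∈ A, ∀ x' ∈ B, ((DD x ∩ DD x').filter (fun D => Rel D x x')).card =
      ∑ D ∈ U, (if D ∈ DD x then (if D ∈ DD x' then (if Rel D x x' then 1 else 0) else 0)
        else 0) := by
    intro x hx x' _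
    have h2 : (DD x ∩ DD x').filter (fun D => Rel D x x') =
        U.filter (fun D => D ∈ DD x ∧ D ∈ DD x' ∧ Rel D x x') := by
      ext D
      simp only [Finset.mem_filter, Finset.mem_inter]
      constructor
      · rintro ⟨⟨a, b⟩, c⟩
        exact ⟨hU x hx a, a, b, c⟩
      · rintro ⟨-, a, b, c⟩
        exact ⟨⟨a, b⟩, c⟩
    rw [h2, Finset.card_filter]
    refine Finset.sum_congr rfl fun D _ => ?_
    by_cases h3 : D ∈ DD x <;> by_cases h4 : D ∈ DD x' <;> simp [h3, h4]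
  rw [Finset.sum_congr rfl fun x hx => Finset.sum_congr rfl fun x' hx' => h1 x hx x' hx']
  rw [Finset.sum_congr rfl fun x hx => Finset.sum_comm]
  rw [Finset.sum_comm]
  refine Finset.sum_congr rfl fun D _ => ?_
  rw [Finset.sum_filter]
  refine Finset.sum_congr rfl fun x _ => ?_
  rw [Finset.sum_filter]
  by_cases h3 : D ∈ DD x
  · simp [h3]
  · simp [h3]

theorem mm_le (hE : ST_CSE) (DD : A4 → Finset ℕ) (A B : Finset A4) :
    2 * MM DD A B ≤ MM DD A A + MM DD B B := by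
  classical
  obtain ⟨U, hA, hB⟩ : ∃ U : Finset ℕ, (∀ x ∈ A, DD x ⊆ U) ∧ (∀ x ∈ B, DD x ⊆ U) := by
    refine ⟨(A ∪ B).biUnion DD, ?_, ?_⟩
    · intro x hx
      exact Finset.subset_biUnion_of_mem DD (Finset.mem_union_left _ hx)
    · intro x hx
      exact Finset.subset_biUnion_of_mem DD (Finset.mem_union_right _ hx)
  rw [mm_eq DD A B U hA, mm_eq DD A A U hA, mm_eq DD B B U hB, Finset.mul_sum,
    ← Finset.sum_add_distrib]
  refine Finset.sum_le_sum fun D _ => ?_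
  exact two_mul_le hE (Rel D) (rel_equiv D) _ _

/-- The norm is at least one. -/
theorem one_le_nx {d : Fin 4 → ℝ} {x : A4} (hd : ∀ i, 0 < d i) (hp : d 0 * d 1 * d 2 * d 3 = 1)
    (hx : ∀ i j, i ≠ j → x i j ≠ 0) : 1 ≤ nx d x := by
  have h1 : ∀ i j, d i * d j * |((x i j : ℤ) : ℝ)| ≤ nx d x := fun i j =>
    Finset.le_sup' (fun p : Fin 4 × Fin 4 => d p.1 * d p.2 * |(x p.1 p.2 : ℝ)|)
      (Finset.mem_univ ((i, j) : Fin 4 × Fin 4))
  have h2 := h1 0 1
  have h3 := h1 2 3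
  have h4 : (1 : ℝ) ≤ |((x 0 1 : ℤ) : ℝ)| := by
    have := Int.one_le_abs (hx 0 1 (by decide))
    exact_mod_cast this
  have h5 : (1 : ℝ) ≤ |((x 2 3 : ℤ) : ℝ)| := by
    have := Int.one_le_abs (hx 2 3 (by decide))
    exact_mod_cast this
  have p1 : 0 < d 0 * d 1 := mul_pos (hd 0) (hd 1)
  have p2 : 0 < d 2 * d 3 := mul_pos (hd 2) (hd 3)
  have h6 : d 0 * d 1 ≤ nx d x := by nlinarith
  have h7 : d 2 * d 3 ≤ nx d x := by nlinarith
  by_contra h8
  push Not at h8
  have h9 : d 0 * d 1 * (d 2 * d 3) = 1 := by linarith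
  have h10 : d 0 * d 1 < 1 := by linarith
  have h11 : d 2 * d 3 < 1 := by linarith
  nlinarith

/-- The dyadic class. -/
theorem exists_class {n X : ℝ} {L : ℕ} (h1 : 1 ≤ n) (h2 : n ≤ X) (h3 : X < 2 ^ L) :
    ∃ j, j < L ∧ X / 2 ^ j / 2 < n ∧ n ≤ X / 2 ^ j := by
  classical
  have hex : ∃ j : ℕ, X / 2 ^ j < n := by
    refine ⟨L, ?_⟩
    have h4 : X / 2 ^ L < 1 := by
      rw [div_lt_one (by positivity)]
      exact h3
    linarith
  have hm : X / 2 ^ (Nat.find hex) < n := Nat.find_spec hex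
  have hL : Nat.find hex ≤ L := by
    refine Nat.find_min' hex ?_
    have h4 : X / 2 ^ L < 1 := by
      rw [div_lt_one (by positivity)]
      exact h3
    linarith
  obtain ⟨m, hm'⟩ : ∃ m, Nat.find hex = m + 1 := by
    rcases Nat.eq_zero_or_pos (Nat.find hex) with h0 | h0
    · rw [h0] at hm
      simp at hm
      linarith
    · exact ⟨Nat.find hex - 1, by omega⟩
  refine ⟨m, by omega, ?_, ?_⟩
  · rw [hm', pow_succ, ← div_div] at hm
    exact hm
  · have h5 := Nat.find_min hex (m := m) (by omega)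
    exact not_lt.1 h5

end MLFrow

open MLFrow in
theorem st_MLF (hE : ST_CSE) (hM : ST_MLE) : ST_MLF := by
  classical
  obtain ⟨C, hC, h0⟩ := hM
  refine ⟨C, hC, ?_⟩
  intro d e e' R X L T T' hW hX hL hT h1 h2 h3 h4 S DD hS hD1 hD2
  have hcl : ∀ x ∈ S, ∃ j, j < L ∧ X / 2 ^ j / 2 < nx d x ∧ nx d x ≤ X / 2 ^ j := by
    intro x hx
    obtain ⟨-, -, a3, a4⟩ := hS x hx
    exact exists_class (one_le_nx hW.pos hW.prod a3) a4 h3
  choose! J hJ using hcl
  obtain ⟨B, hB⟩ : ∃ B : ℝ, B = C * L ^ 2 * X ^ 4 * R ^ 4 * T ^ 3 * T' := ⟨_, rfl⟩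
  have hR := hW.R1
  have hB0 : 0 ≤ B := by
    rw [hB]
    positivity
  have hdiag : ∀ j, ((MM DD (S.filter fun x => J x = j) (S.filter fun x => J x = j) : ℕ) : ℝ) ≤
      B := by
    intro j
    rcases (S.filter fun x => J x = j).eq_empty_or_nonempty with hE0 | ⟨y, hy⟩
    · rw [hE0]
      simpa [MM] using hB0
    have hXj : X / 2 ^ j ≤ X := by
      refine div_le_self (by linarith) (one_le_pow₀ (by norm_num))
    have hXj0 : 0 < X / 2 ^ j := by positivity
    rw [Finset.mem_filter] at hy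
    obtain ⟨hy1, hy2⟩ := hy
    have hXj1 : 1 ≤ X / 2 ^ j := by
      obtain ⟨-, -, a3, a4⟩ := hS y hy1
      have := (hJ y hy1).2.2
      rw [hy2] at this
      exact (one_le_nx hW.pos hW.prod a3).trans this
    have h5 := h0 d e e' R (X / 2 ^ j) L T T' hW hXj1 hL hT (by linarith) (by linarith)
      (fun m hm1 hm2 => h4 m hm1 (hm2.trans (pow_le_pow_left₀ hXj0.le hXj 2)))
      (S.filter fun x => J x = j) DD ?_ ?_ ?_
    · refine h5.trans ?_
      rw [hB]
      have h6 : (X / 2 ^ j) ^ 4 ≤ X ^ 4 := pow_le_pow_left₀ hXj0.le hXj 4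
      have h7 : C * L ^ 2 * (X / 2 ^ j) ^ 4 * R ^ 4 * T ^ 3 * T' =
          (C * L ^ 2 * R ^ 4 * T ^ 3 * T') * (X / 2 ^ j) ^ 4 := by ring
      have h8 : C * L ^ 2 * X ^ 4 * R ^ 4 * T ^ 3 * T' =
          (C * L ^ 2 * R ^ 4 * T ^ 3 * T') * X ^ 4 := by ring
      rw [h7, h8]
      exact mul_le_mul_of_nonneg_left h6 (by positivity)
    · intro x hx
      rw [Finset.mem_filter] at hx
      obtain ⟨a1, a2, a3, a4⟩ := hS x hx.1
      have a5 := hJ x hx.1
      rw [hx.2] at a5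
      exact ⟨a1, a2, a3, a5.2.1, a5.2.2⟩
    · intro x hx
      rw [Finset.mem_filter] at hx
      exact hD1 x hx.1
    · intro x hx D hD
      rw [Finset.mem_filter] at hx
      obtain ⟨a1, a2⟩ := hD2 x hx.1 D hD
      exact ⟨a1, hXj.trans a2⟩
  have hoff : ∀ i j, ((MM DD (S.filter fun x => J x = i) (S.filter fun x => J x = j) : ℕ) : ℝ) ≤
      B := by
    intro i j
    have h5 := mm_le hE DD (S.filter fun x => J x = i) (S.filter fun x => J x = j)
    have h6 : (2 : ℝ) * (MM DD (S.filter fun x => J x = i) (S.filter fun x => J x = j) : ℕ) ≤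
        (MM DD (S.filter fun x => J x = i) (S.filter fun x => J x = i) : ℕ) +
        (MM DD (S.filter fun x => J x = j) (S.filter fun x => J x = j) : ℕ) := by
      exact_mod_cast h5
    have h7 := hdiag i
    have h8 := hdiag j
    linarith
  have hmap : ∀ x ∈ S, J x ∈ Finset.range L := fun x hx => Finset.mem_range.2 (hJ x hx).1
  have hsplit : MM DD S S = ∑ i ∈ Finset.range L, ∑ j ∈ Finset.range L,
      MM DD (S.filter fun x => J x = i) (S.filter fun x => J x = j) := by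
    unfold MM
    rw [← Finset.sum_fiberwise_of_maps_to hmap]
    refine Finset.sum_congr rfl fun i _ => ?_
    rw [Finset.sum_comm]
    rw [← Finset.sum_fiberwise_of_maps_to hmap]
    refine Finset.sum_congr rfl fun j _ => ?_
    rw [Finset.sum_comm]
  have hfin : ((MM DD S S : ℕ) : ℝ) ≤ C * L ^ 4 * X ^ 4 * R ^ 4 * T ^ 3 * T' := by
    rw [hsplit]
    push_cast
    calc (∑ i ∈ Finset.range L, ∑ j ∈ Finset.range L,
          ((MM DD (S.filter fun x => J x = i) (S.filter fun x => J x = j) : ℕ) : ℝ))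
        ≤ ∑ i ∈ Finset.range L, ∑ j ∈ Finset.range L, B :=
          Finset.sum_le_sum fun i _ => Finset.sum_le_sum fun j _ => hoff i j
      _ = (L : ℝ) * (L * B) := by simp
      _ = _ := by
        rw [hB]
        ring
  exact hfin

end Pool.Helper13.R6
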