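import Pool.Agent.Helper67.R6.Fam

set_option autoImplicit false

namespace Pool.Helper67.R6

namespace PDZrow

variable {F : Type} [Field F]

/-- the monomials as functions on `Z` -/
def mon (Z : Finset (F × F)) (p : ℕ × ℕ) : Z → F := fun z => z.1.1 ^ p.1 * z.1.2 ^ p.2

/-- the exponents of degree `≤ k` -/
def EK (k : ℕ) : Finset (ℕ × ℕ) :=
  ((Finset.range (k + 1)).sigma fun n => Finset.range (n + 1)).image fun s => (s.2, s.1 - s.2)

theorem mem_EK {k : ℕ} {p : ℕ × ℕ} : p ∈ EK k ↔ p.1 + p.2 ≤ k := by
  unfold EK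
  rw [Finset.mem_image]
  constructor
  · rintro ⟨⟨n, i⟩, h1, rfl⟩
    rw [Finset.mem_sigma, Finset.mem_range, Finset.mem_range] at h1
    simp only at h1 ⊢
    omega
  · intro h
    refine ⟨⟨p.1 + p.2, p.1⟩, ?_, ?_⟩
    · rw [Finset.mem_sigma, Finset.mem_range, Finset.mem_range]
      simp only
      omega
    · refine Prod.ext rfl ?_
      simp only
      omega

theorem card_EK (k : ℕ) : (EK k).card ≤ (k + 1) * (k + 2) / 2 := by
  have h1 : (EK k).card ≤ ∑ n ∈ Finset.range (k + 1), (n + 1) := by
    refine Finset.card_image_le.trans ?_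
    rw [Finset.card_sigma]
    refine Finset.sum_le_sum fun n _ => ?_
    rw [Finset.card_range]
  have h2 : ∀ k : ℕ, (∑ n ∈ Finset.range (k + 1), (n + 1)) * 2 = (k + 1) * (k + 2) := by
    intro k
    induction k with
    | zero => simp
    | succ k ih =>
      rw [Finset.sum_range_succ, add_mul, ih]
      ring
  have h3 := h2 k
  rw [Nat.le_div_iff_mul_le (by norm_num)]
  calc (EK k).card * 2 ≤ (∑ n ∈ Finset.range (k + 1), (n + 1)) * 2 := Nat.mul_le_mul_right _ h1
    _ = _ := h3

/-- the functions of degree `≤ k` -/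
def WW (Z : Finset (F × F)) (k : ℕ) : Submodule F (Z → F) :=
  Submodule.span F (mon Z '' (EK k : Set (ℕ × ℕ)))

theorem mon_mem {Z : Finset (F × F)} {k : ℕ} {p : ℕ × ℕ} (h : p.1 + p.2 ≤ k) :
    mon Z p ∈ WW Z k :=
  Submodule.subset_span ⟨p, Finset.mem_coe.2 (mem_EK.2 h), rfl⟩

theorem pd_mem {Z : Finset (F × F)} {k : ℕ} {f : F × F → F} (h : PD Z k f) :
    (fun z : Z => f z.1) ∈ WW Z k := by
  obtain ⟨P, h1, h2⟩ := h
  have h3 : (fun z : Z => f z.1) = ∑ s ∈ P.support, P.coeff s • mon Z (s 0, s 1) := by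
    funext z
    rw [h2 z.1 z.2, MvPolynomial.eval_eq', Finset.sum_apply]
    refine Finset.sum_congr rfl fun s _ => ?_
    simp [mon, Fin.prod_univ_two]
  rw [h3]
  refine Submodule.sum_mem _ fun s hs => Submodule.smul_mem _ _ (mon_mem ?_)
  have h4 := MvPolynomial.le_totalDegree hs
  have h5 : (s.sum fun _ e => e) = s 0 + s 1 := by
    rw [Finsupp.sum_fintype _ _ (fun _ => rfl), Fin.sum_univ_two]
  simp only
  omega

/-- The space is stable under the coordinates. -/
theorem mul_mem {Z : Finset (F × F)} {k : ℕ}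
    (h : ∀ i j : ℕ, i + j = k + 1 → PD Z k (fun z => z.1 ^ i * z.2 ^ j)) {f : Z → F}
    (hf : f ∈ WW Z k) :
    (fun z : Z => z.1.1 * f z) ∈ WW Z k ∧ (fun z : Z => z.1.2 * f z) ∈ WW Z k := by
  have hm : ∀ p : ℕ × ℕ, p.1 + p.2 ≤ k + 1 → mon Z p ∈ WW Z k := by
    intro p hp
    rcases Nat.lt_or_ge (p.1 + p.2) (k + 1) with h1 | h1
    · exact mon_mem (by omega)
    · exact pd_mem (h p.1 p.2 (by omega))
  unfold WW at hf
  refine Submodule.span_induction ?_ ?_ ?_ ?_ hf
  · intro g hg
    obtain ⟨p, hp, rfl⟩ := hg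
    rw [Finset.mem_coe, mem_EK] at hp
    constructor
    · have e : (fun z : Z => z.1.1 * mon Z p z) = mon Z (p.1 + 1, p.2) := by
        funext z
        simp only [mon]
        ring
      rw [e]
      exact hm _ (by simp only; omega)
    · have e : (fun z : Z => z.1.2 * mon Z p z) = mon Z (p.1, p.2 + 1) := by
        funext z
        simp only [mon]
        ring
      rw [e]
      exact hm _ (by simp only; omega)
  · constructor
    · have e : (fun z : Z => z.1.1 * (0 : Z → F) z) = 0 := by
        funext z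
        simp
      rw [e]
      exact Submodule.zero_mem _
    · have e : (fun z : Z => z.1.2 * (0 : Z → F) z) = 0 := by
        funext z
        simp
      rw [e]
      exact Submodule.zero_mem _
  · rintro f g _ _ ⟨a1, a2⟩ ⟨b1, b2⟩
    constructor
    · have e : (fun z : Z => z.1.1 * (f + g) z) =
          (fun z : Z => z.1.1 * f z) + fun z : Z => z.1.1 * g z := by
        funext z
        simp [mul_add]
      rw [e]
      exact Submodule.add_mem _ a1 b1
    · have e : (fun z : Z => z.1.2 * (f + g) z) =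
          (fun z : Z => z.1.2 * f z) + fun z : Z => z.1.2 * g z := by
        funext z
        simp [mul_add]
      rw [e]
      exact Submodule.add_mem _ a2 b2
  · rintro c f _ ⟨a1, a2⟩
    constructor
    · have e : (fun z : Z => z.1.1 * (c • f) z) = c • fun z : Z => z.1.1 * f z := by
        funext z
        simp [mul_left_comm]
      rw [e]
      exact Submodule.smul_mem _ _ a1
    · have e : (fun z : Z => z.1.2 * (c • f) z) = c • fun z : Z => z.1.2 * f z := by
        funext z
        simp [mul_left_comm]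
      rw [e]
      exact Submodule.smul_mem _ _ a2

/-- The function which is one at `a` and zero elsewhere. -/
theorem delta_mem {Z : Finset (F × F)} {k : ℕ}
    (h : ∀ i j : ℕ, i + j = k + 1 → PD Z k (fun z => z.1 ^ i * z.2 ^ j)) (a : Z) :
    ∃ f ∈ WW Z k, f a ≠ 0 ∧ ∀ b, b ≠ a → f b = 0 := by
  classical
  have key : ∀ T : Finset Z, a ∉ T → ∃ f ∈ WW Z k, f a ≠ 0 ∧ ∀ b ∈ T, f b = 0 := by
    intro T
    induction T using Finset.induction_on with
    | empty =>
      intro _
      refine ⟨mon Z (0, 0), mon_mem (by simp), ?_, by simp⟩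
      simp [mon]
    | insert b T hb ih =>
      intro ha
      rw [Finset.mem_insert, not_or] at ha
      obtain ⟨f, hf, h1, h2⟩ := ih ha.2
      have hab : a.1 ≠ b.1 := fun e => ha.1 (Subtype.ext e)
      obtain ⟨m1, m2⟩ := mul_mem h hf
      by_cases hx : a.1.1 = b.1.1
      · have hy : a.1.2 ≠ b.1.2 := fun e => hab (Prod.ext hx e)
        refine ⟨(fun z : Z => z.1.2 * f z) - b.1.2 • f, Submodule.sub_mem _ m2
          (Submodule.smul_mem _ _ hf), ?_, ?_⟩
        · have e : ((fun z : Z => z.1.2 * f z) - b.1.2 • f) a = (a.1.2 - b.1.2) * f a := by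
            simp [sub_mul]
          rw [e]
          exact mul_ne_zero (sub_ne_zero.2 hy) h1
        · intro c hc
          have e : ((fun z : Z => z.1.2 * f z) - b.1.2 • f) c = (c.1.2 - b.1.2) * f c := by
            simp [sub_mul]
          rw [e]
          rcases Finset.mem_insert.1 hc with rfl | hc
          · simp
          · rw [h2 c hc, mul_zero]
      · refine ⟨(fun z : Z => z.1.1 * f z) - b.1.1 • f, Submodule.sub_mem _ m1
          (Submodule.smul_mem _ _ hf), ?_, ?_⟩
        · have e : ((fun z : Z => z.1.1 * f z) - b.1.1 • f) a = (a.1.1 - b.1.1) * f a := by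
            simp [sub_mul]
          rw [e]
          exact mul_ne_zero (sub_ne_zero.2 hx) h1
        · intro c hc
          have e : ((fun z : Z => z.1.1 * f z) - b.1.1 • f) c = (c.1.1 - b.1.1) * f c := by
            simp [sub_mul]
          rw [e]
          rcases Finset.mem_insert.1 hc with rfl | hc
          · simp
          · rw [h2 c hc, mul_zero]
  obtain ⟨f, hf, h1, h2⟩ := key (Finset.univ.erase a) (by simp)
  exact ⟨f, hf, h1, fun b hb => h2 b (by simp [hb])⟩

theorem top_eq {Z : Finset (F × F)} {k : ℕ}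
    (h : ∀ i j : ℕ, i + j = k + 1 → PD Z k (fun z => z.1 ^ i * z.2 ^ j)) : WW Z k = ⊤ := by
  classical
  rw [eq_top_iff]
  intro g _
  choose f hf h1 h2 using delta_mem h
  have e : g = ∑ a : Z, (g a / f a a) • f a := by
    funext b
    rw [Finset.sum_apply, Finset.sum_eq_single b]
    · simp only [Pi.smul_apply, smul_eq_mul]
      rw [div_mul_cancel₀ _ (h1 b)]
    · intro a _ hab
      simp only [Pi.smul_apply, smul_eq_mul]
      rw [h2 a b hab.symm, mul_zero]
    · intro hb
      exact absurd (Finset.mem_univ b) hb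
  rw [e]
  exact Submodule.sum_mem _ fun a _ => Submodule.smul_mem _ _ (hf a)

end PDZrow

open PDZrow in
theorem st_PDZ : ST_PDZ := by
  classical
  intro F _ Z k h
  have h1 := top_eq h
  have h2 : Module.finrank F (Z → F) = Z.card := by
    rw [Module.finrank_fintype_fun_eq_card, Fintype.card_coe]
  have h3 : Module.finrank F (WW Z k) ≤ ((EK k).image (mon Z)).card := by
    have e : WW Z k = Submodule.span F (((EK k).image (mon Z) : Finset (Z → F)) : Set (Z → F)) := by
      rw [Finset.coe_image]
      rfl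
    rw [e]
    exact finrank_span_finset_le_card _
  rw [h1, finrank_top, h2] at h3
  exact h3.trans (Finset.card_image_le.trans (card_EK k))

end Pool.Helper67.R6
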